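import Pool.Agent.H252R3.Small

set_option autoImplicit false

/-!
For every base `b ≥ 2` the squares of the positive integers all of whose base-`b` digits are `0`
or `1` form an `H`-set, with an explicit rate.
-/

namespace Pool.Agent.Results.MP_19dfdc_nt.SquaresOfDigitSets

open Filter Topology

/-- The distance from a real number to the nearest integer. -/
noncomputable def distInt (x : ℝ) : ℝ := |x - round x|

/-- The positive integers `∑ d ∈ α, b ^ d`, where `α` runs through the nonempty finite sets of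
exponents: for `b ≥ 2` these are the positive integers whose base-`b` digits are all `0` or `1`. -/
def digitSet (b : ℕ) : Set ℕ := {s | ∃ α : Finset ℕ, α.Nonempty ∧ s = ∑ d ∈ α, b ^ d}

/-- The squares of the elements of `digitSet b`. -/
def sqDigitSet (b : ℕ) : Set ℕ := {n | ∃ s ∈ digitSet b, n = s ^ 2}

/-- `H` is an `H`-set, as witnessed by the function `f`: `f N → 0`, and for every real `γ` and every
`N` (with `N ≥ min H`) some `n ∈ H` with `1 ≤ n ≤ N` has `‖n γ‖ ≤ f N`. -/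
def IsHSetWith (H : Set ℕ) (f : ℕ → ℝ) : Prop :=
  Tendsto f atTop (𝓝 0) ∧ ∀ (γ : ℝ) (N : ℕ), (∃ n ∈ H, 1 ≤ n ∧ n ≤ N) →
    ∃ n ∈ H, 1 ≤ n ∧ n ≤ N ∧ distInt (n * γ) ≤ f N

lemma one_mem (b : ℕ) : 1 ∈ sqDigitSet b :=
  ⟨1, ⟨{0}, by simp, by simp⟩, by simp⟩

lemma distInt_le_half (x : ℝ) : distInt x ≤ 1 / 2 := abs_sub_round x

lemma tendsto_rate (c : ℝ) :
    Tendsto (fun N : ℕ => 2 * (c / Real.log (N + 1)) ^ (1 / 50 : ℝ)) atTop (𝓝 0) := by
  have h1 : Tendsto (fun N : ℕ => Real.log ((N : ℝ) + 1)) atTop atTop :=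
    Real.tendsto_log_atTop.comp (tendsto_atTop_add_const_right _ _ tendsto_natCast_atTop_atTop)
  have h2 : Tendsto (fun N : ℕ => c / Real.log ((N : ℝ) + 1)) atTop (𝓝 0) :=
    h1.const_div_atTop c
  have h3 := (h2.rpow_const (p := (1 / 50 : ℝ)) (Or.inr (by norm_num))).const_mul 2
  rw [Real.zero_rpow (by norm_num), mul_zero] at h3
  exact h3

/-- **Main theorem.** For every integer `b ≥ 2` the set of squares of the positive integers whose
base-`b` digits are all `0` or `1` is an `H`-set, with the explicit rate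
`f N = 2 (4·10⁹ log b / log (N+1)) ^ (1/50)`. -/
theorem result (b : ℕ) (hb : 2 ≤ b) :
    IsHSetWith (sqDigitSet b)
      (fun N => 2 * (4 * 10 ^ 9 * Real.log b / Real.log (N + 1)) ^ (1 / 50 : ℝ)) := by
  refine ⟨tendsto_rate _, ?_⟩
  rintro γ N ⟨n₀, -, hn₀, hn₀N⟩
  have hN1 : 1 ≤ N := hn₀.trans hn₀N
  have hlogb : 0 < Real.log b := Real.log_pos (by exact_mod_cast hb)
  have hx : 0 < Real.log ((N : ℝ) + 1) :=
    Real.log_pos (by have : (1 : ℝ) ≤ N := by exact_mod_cast hN1
                     linarith)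
  obtain ⟨y, hy⟩ : ∃ y : ℝ, y = 4 * 10 ^ 9 * Real.log b / Real.log (N + 1) := ⟨_, rfl⟩
  have hy0 : 0 < y := by rw [hy]; positivity
  simp only
  rw [← hy]
  by_cases hy1 : 1 ≤ y
  · -- trivial range
    refine ⟨1, one_mem b, le_rfl, hN1, (distInt_le_half _).trans ?_⟩
    have := Real.one_le_rpow hy1 (by norm_num : (0 : ℝ) ≤ 1 / 50)
    linarith
  · push Not at hy1
    obtain ⟨M, hM⟩ : ∃ M, M = Nat.log b N / 2 := ⟨_, rfl⟩
    -- `log (N+1) ≤ (2M+2) log b`
    have h1 : Real.log ((N : ℝ) + 1) ≤ (2 * M + 2) * Real.log b := by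
      have h2 : N + 1 ≤ b ^ (Nat.log b N + 1) := Nat.lt_pow_succ_log_self (by omega) N
      have h3 : b ^ (Nat.log b N + 1) ≤ b ^ (2 * M + 2) :=
        Nat.pow_le_pow_right (by omega) (by omega)
      have h4 : ((N : ℝ) + 1) ≤ (b : ℝ) ^ (2 * M + 2) := by exact_mod_cast h2.trans h3
      have h5 := Real.log_le_log (by positivity) h4
      rw [Real.log_pow] at h5
      push_cast at h5
      exact h5
    have h2 : 4 * 10 ^ 9 * Real.log b < Real.log ((N : ℝ) + 1) := by
      rw [hy, div_lt_one hx] at hy1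
      exact hy1
    have hM1 : (1 : ℝ) ≤ M := by
      have h3 : (4 : ℝ) * 10 ^ 9 * Real.log b < (2 * M + 2) * Real.log b := h2.trans_le h1
      have h4 : (4 : ℝ) * 10 ^ 9 < 2 * M + 2 := lt_of_mul_lt_mul_right h3 hlogb.le
      norm_num at h4
      linarith
    have h3 : Real.log ((N : ℝ) + 1) ≤ 4 * M * Real.log b := by
      refine h1.trans ?_
      gcongr
      linarith
    -- `1 / y ≤ M / 10 ^ 9`
    have h4 : 10 ^ 9 * (1 / y) ≤ M := by
      rw [hy, one_div_div, mul_div_assoc', div_le_iff₀ (by positivity)]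
      nlinarith
    -- choice of `n`
    obtain ⟨z, hz⟩ : ∃ z : ℝ, z = (1 / y) ^ (1 / 50 : ℝ) := ⟨_, rfl⟩
    have hz1 : 1 ≤ z := by
      rw [hz]
      apply Real.one_le_rpow _ (by norm_num)
      rw [le_div_iff₀ hy0]
      linarith
    have hz50 : z ^ 50 = 1 / y := by
      rw [hz, ← Real.rpow_natCast, ← Real.rpow_mul (by positivity)]
      norm_num
    obtain ⟨n, hn⟩ : ∃ n, n = ⌊z⌋₊ := ⟨_, rfl⟩
    have hn1 : 1 ≤ n := by rw [hn]; exact Nat.le_floor (by exact_mod_cast hz1)
    have hnz : (n : ℝ) ≤ z := by rw [hn]; exact Nat.floor_le (by linarith)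
    have hzn : z < n + 1 := by rw [hn]; exact Nat.lt_floor_add_one z
    have hn0 : (1 : ℝ) ≤ n := by exact_mod_cast hn1
    have hcard : 10 ^ 9 * n ^ 50 ≤ (Finset.range M).card := by
      rw [Finset.card_range]
      have : (10 : ℝ) ^ 9 * n ^ 50 ≤ M := by
        refine le_trans ?_ h4
        rw [← hz50]
        gcongr
      exact_mod_cast this
    obtain ⟨S, hSM, hSne, hS⟩ := Pool.Agent.H252R3.small_value
      (A := fun i j => γ * (b : ℝ) ^ (i + j)) (fun i j => by rw [add_comm]) n hn1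
      (Finset.range M) hcard
    -- the digit sum
    obtain ⟨s, hs⟩ : ∃ s : ℕ, s = ∑ d ∈ S, b ^ d := ⟨_, rfl⟩
    have hspos : 1 ≤ s := by
      obtain ⟨d, hd⟩ := hSne
      rw [hs]
      exact le_trans (Nat.one_le_pow _ _ (by omega)) (Finset.single_le_sum
        (f := fun d => b ^ d) (fun i _ => Nat.zero_le _) hd)
    have hslt : s < b ^ M := by
      rw [hs]
      calc ∑ d ∈ S, b ^ d ≤ ∑ d ∈ Finset.range M, b ^ d :=
            Finset.sum_le_sum_of_subset hSM
        _ < b ^ M := Nat.geomSum_lt hb (fun k hk => Finset.mem_range.mp hk)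
    have hsN : s ^ 2 ≤ N := by
      calc s ^ 2 ≤ (b ^ M) ^ 2 := Nat.pow_le_pow_left hslt.le 2
        _ = b ^ (2 * M) := by rw [← pow_mul, mul_comm]
        _ ≤ b ^ (Nat.log b N) := Nat.pow_le_pow_right (by omega) (by omega)
        _ ≤ N := Nat.pow_log_le_self b (by omega)
    refine ⟨s ^ 2, ⟨s, ⟨S, hSne, hs⟩, rfl⟩, Nat.one_le_pow _ _ hspos, hsN, ?_⟩
    have hval : ((s ^ 2 : ℕ) : ℝ) * γ =
        Pool.Agent.H252R3.FF (fun i j => γ * (b : ℝ) ^ (i + j)) S := by
      rw [Pool.Agent.H252R3.FF, Pool.Agent.H252R3.BB, hs]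
      push_cast
      rw [sq, Finset.sum_mul_sum, Finset.sum_mul]
      refine Finset.sum_congr rfl fun i _ => ?_
      rw [Finset.sum_mul]
      refine Finset.sum_congr rfl fun j _ => ?_
      rw [pow_add]
      ring
    rw [hval]
    refine hS.trans ?_
    -- `1 / n ≤ 2 / z`
    have h5 : y ^ (1 / 50 : ℝ) = 1 / z := by
      rw [hz, Real.div_rpow (by norm_num) hy0.le, Real.one_rpow, one_div_one_div]
    rw [h5, mul_one_div, div_le_div_iff₀ (by linarith) (by linarith)]
    linarith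

end Pool.Agent.Results.MP_19dfdc_nt.SquaresOfDigitSets
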